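import Pool.Agent.Helper37.RT.Defs
import Pool.Agent.Helper61.RT.T2

/-! Row T4: Bessel's inequality for the system `dpsi`. -/

namespace Pool.Agent.Helper37.RT

open MeasureTheory Set Filter Topology
open scoped ENNReal

theorem t4_integrable {α : Type*} [MeasurableSpace α] (μ : Measure α) [IsFiniteMeasure μ]
    {f : α → ℝ} (hf : Measurable f) {M : ℝ} (hM : ∀ y, |f y| ≤ M) : Integrable f μ :=
  Integrable.of_bound hf.aestronglyMeasurable M (Eventually.of_forall fun y => by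
    rw [Real.norm_eq_abs]; exact hM y)

theorem t4_abs {α ι : Type*} [MeasurableSpace α] (μ : Measure α) [IsFiniteMeasure μ]
    (I : Finset ι) (e : ι → α → ℝ) (F : α → ℝ) (he : ∀ p, Measurable (e p))
    (Me : ι → ℝ) (hMe : ∀ p y, |e p y| ≤ Me p) (hF : Measurable F) {M : ℝ} (hM : ∀ y, |F y| ≤ M)
    (orth : ∀ p ∈ I, ∀ q ∈ I, p ≠ q → ∫ y, e p y * e q y ∂μ = 0)
    (nrm : ∀ p ∈ I, ∫ y, e p y * e p y ∂μ = 4 / 3) :
    ∑ p ∈ I, (∫ y, e p y * F y ∂μ) ^ 2 ≤ 4 / 3 * ∫ y, F y ^ 2 ∂μ := by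
  classical
  set b : ι → ℝ := fun p => ∫ y, e p y * F y ∂μ with hb
  have heF : ∀ p, Integrable (fun y => e p y * F y) μ := fun p =>
    t4_integrable μ ((he p).mul hF) (M := Me p * M) (fun y => by
      rw [abs_mul]
      exact mul_le_mul (hMe p y) (hM y) (abs_nonneg _) ((abs_nonneg _).trans (hMe p y)))
  have hee : ∀ p q, Integrable (fun y => e p y * e q y) μ := fun p q =>
    t4_integrable μ ((he p).mul (he q)) (M := Me p * Me q) (fun y => by
      rw [abs_mul]
      exact mul_le_mul (hMe p y) (hMe q y) (abs_nonneg _) ((abs_nonneg _).trans (hMe p y)))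
  have hFF : Integrable (fun y => F y ^ 2) μ :=
    t4_integrable μ (hF.pow_const 2) (M := M ^ 2) (fun y => by
      rw [abs_pow]
      exact pow_le_pow_left₀ (abs_nonneg _) (hM y) 2)
  set S : α → ℝ := fun y => ∑ p ∈ I, 3 / 4 * b p * e p y with hS
  have hFS : Integrable (fun y => S y * F y) μ := by
    have : (fun y => S y * F y) = fun y => ∑ p ∈ I, 3 / 4 * b p * (e p y * F y) := by
      funext y
      rw [hS, Finset.sum_mul]
      exact Finset.sum_congr rfl fun p _ => by ring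
    rw [this]
    exact integrable_finsetSum _ fun p _ => (heF p).const_mul _
  have hFSi : ∫ y, S y * F y ∂μ = 3 / 4 * ∑ p ∈ I, b p ^ 2 := by
    have : (fun y => S y * F y) = fun y => ∑ p ∈ I, 3 / 4 * b p * (e p y * F y) := by
      funext y
      rw [hS, Finset.sum_mul]
      exact Finset.sum_congr rfl fun p _ => by ring
    rw [this, integral_finsetSum _ fun p _ => (heF p).const_mul _, Finset.mul_sum]
    refine Finset.sum_congr rfl fun p _ => ?_
    rw [integral_const_mul]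
    show 3 / 4 * b p * b p = _
    ring
  have heS : ∀ p, Integrable (fun y => e p y * S y) μ := by
    intro p
    have : (fun y => e p y * S y) = fun y => ∑ q ∈ I, 3 / 4 * b q * (e p y * e q y) := by
      funext y
      rw [hS, Finset.mul_sum]
      exact Finset.sum_congr rfl fun q _ => by ring
    rw [this]
    exact integrable_finsetSum _ fun q _ => (hee p q).const_mul _
  have heSi : ∀ p ∈ I, ∫ y, e p y * S y ∂μ = b p := by
    intro p hp
    have : (fun y => e p y * S y) = fun y => ∑ q ∈ I, 3 / 4 * b q * (e p y * e q y) := by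
      funext y
      rw [hS, Finset.mul_sum]
      exact Finset.sum_congr rfl fun q _ => by ring
    rw [this, integral_finsetSum _ fun q _ => (hee p q).const_mul _,
      Finset.sum_eq_single_of_mem p hp]
    · rw [integral_const_mul, nrm p hp]
      ring
    · intro q hq hqp
      rw [integral_const_mul, orth p hp q hq (Ne.symm hqp), mul_zero]
  have hSS : Integrable (fun y => S y * S y) μ := by
    have : (fun y => S y * S y) = fun y => ∑ p ∈ I, 3 / 4 * b p * (e p y * S y) := by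
      funext y
      conv_lhs => rw [hS]
      rw [Finset.sum_mul]
      exact Finset.sum_congr rfl fun p _ => by ring
    rw [this]
    exact integrable_finsetSum _ fun p _ => (heS p).const_mul _
  have hSSi : ∫ y, S y * S y ∂μ = 3 / 4 * ∑ p ∈ I, b p ^ 2 := by
    have : (fun y => S y * S y) = fun y => ∑ p ∈ I, 3 / 4 * b p * (e p y * S y) := by
      funext y
      conv_lhs => rw [hS]
      rw [Finset.sum_mul]
      exact Finset.sum_congr rfl fun p _ => by ring
    rw [this, integral_finsetSum _ fun p _ => (heS p).const_mul _, Finset.mul_sum]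
    refine Finset.sum_congr rfl fun p hp => ?_
    rw [integral_const_mul, heSi p hp]
    ring
  have h0 : 0 ≤ ∫ y, (F y - S y) ^ 2 ∂μ := integral_nonneg fun y => sq_nonneg _
  have h1 : ∫ y, (F y - S y) ^ 2 ∂μ =
      ∫ y, F y ^ 2 ∂μ - 2 * ∫ y, S y * F y ∂μ + ∫ y, S y * S y ∂μ := by
    have e1 : (fun y => (F y - S y) ^ 2) =
        fun y => (F y ^ 2 - 2 * (S y * F y)) + S y * S y := by
      funext y; ring
    have i1 : Integrable (fun y => F y ^ 2 - 2 * (S y * F y)) μ := hFF.sub (hFS.const_mul 2)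
    rw [e1, integral_add i1 hSS, integral_sub hFF (hFS.const_mul 2), integral_const_mul]
  rw [h1, hFSi, hSSi] at h0
  show ∑ p ∈ I, b p ^ 2 ≤ _
  linarith

theorem t4_tent_nonneg (t : ℝ) : 0 ≤ tent t := le_max_left _ _

theorem t4_tent_le_one (t : ℝ) : tent t ≤ 1 := by
  unfold tent
  exact max_le zero_le_one (by linarith [abs_nonneg (2 * t - 1)])

theorem t4_tent_zero {t : ℝ} (h : t ≤ 0 ∨ 1 ≤ t) : tent t = 0 := by
  unfold tent
  apply max_eq_left
  rcases h with h | h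
  · rw [abs_of_nonpos (by linarith)]; linarith
  · rw [abs_of_nonneg (by linarith)]; linarith

theorem t4_haar_abs (t : ℝ) : |haar t| ≤ 1 := by
  unfold haar
  split_ifs <;> simp

theorem t4_haar_zero {t : ℝ} (h : t < 0 ∨ 1 ≤ t) : haar t = 0 := by
  unfold haar
  rcases h with h | h
  · rw [if_neg (by rintro ⟨h1, _⟩; linarith), if_neg (by rintro ⟨h1, _⟩; linarith)]
  · rw [if_neg (by rintro ⟨_, h1⟩; linarith), if_neg (by rintro ⟨_, h1⟩; linarith)]

theorem t4_haar_measurable : Measurable haar := by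
  unfold haar
  exact Measurable.ite (measurableSet_Ico (a := (0 : ℝ)) (b := 1 / 2)) measurable_const
    (Measurable.ite (measurableSet_Ico (a := (1 / 2 : ℝ)) (b := 1)) measurable_const
      measurable_const)

theorem t4_tent_measurable : Measurable tent := by
  unfold tent
  fun_prop

theorem t4_dpsi_measurable (i : Fin 2) (k : ℕ) (c : ℕ × ℕ) : Measurable (dpsi i k c) := by
  have h1 : Measurable fun y : ℝ × ℝ => haar (2 ^ k * y.1 - c.1) :=
    t4_haar_measurable.comp (by fun_prop)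
  have h2 : Measurable fun y : ℝ × ℝ => haar (2 ^ k * y.2 - c.2) :=
    t4_haar_measurable.comp (by fun_prop)
  have h3 : Measurable fun y : ℝ × ℝ => tent (2 ^ k * y.1 - c.1) :=
    t4_tent_measurable.comp (by fun_prop)
  have h4 : Measurable fun y : ℝ × ℝ => tent (2 ^ k * y.2 - c.2) :=
    t4_tent_measurable.comp (by fun_prop)
  unfold dpsi
  by_cases hi : i = 0
  · simp only [hi, if_true]
    exact (h1.mul h4).const_mul _
  · simp only [hi, if_false]
    exact (h3.mul h2).const_mul _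

theorem t4_dpsi_abs (i : Fin 2) (k : ℕ) (c : ℕ × ℕ) (y : ℝ × ℝ) :
    |dpsi i k c y| ≤ 2 ^ (k + 1) := by
  have key : ∀ a b : ℝ, |haar a * tent b| ≤ 1 := by
    intro a b
    rw [abs_mul, abs_of_nonneg (t4_tent_nonneg b)]
    exact mul_le_one₀ (t4_haar_abs a) (t4_tent_nonneg b) (t4_tent_le_one b)
  unfold dpsi
  split_ifs
  · rw [abs_mul, abs_of_nonneg (by positivity : (0 : ℝ) ≤ 2 ^ (k + 1))]
    exact mul_le_of_le_one_right (by positivity) (key _ _)
  · rw [abs_mul, abs_of_nonneg (by positivity : (0 : ℝ) ≤ 2 ^ (k + 1)), mul_comm (tent _)]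
    exact mul_le_of_le_one_right (by positivity) (key _ _)

theorem t4_cell {k c : ℕ} (hc : c < 2 ^ k) {t : ℝ} (h0 : 0 ≤ 2 ^ k * t - c)
    (h1 : 2 ^ k * t - c < 1) : t ∈ Ico (0 : ℝ) 1 := by
  have h2 : (0 : ℝ) < 2 ^ k := by positivity
  have h3 : (c : ℝ) + 1 ≤ 2 ^ k := by exact_mod_cast hc
  have h4 : (0 : ℝ) ≤ c := by positivity
  constructor
  · by_contra h
    push Not at h
    have := mul_neg_of_pos_of_neg h2 h
    linarith
  · by_contra h
    push Not at h
    have : 2 ^ k * 1 ≤ 2 ^ k * t := mul_le_mul_of_nonneg_left h h2.le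
    linarith

theorem t4_dpsi_off (i : Fin 2) {k : ℕ} {c : ℕ × ℕ} (hc : c ∈ cells k) {y : ℝ × ℝ}
    (hy : y ∉ BB) : dpsi i k c y = 0 := by
  unfold cells at hc
  rw [Finset.mem_product, Finset.mem_range, Finset.mem_range] at hc
  have key : ∀ (f g : ℝ → ℝ), (∀ t, t < 0 ∨ 1 ≤ t → f t = 0) → (∀ t, t < 0 ∨ 1 ≤ t → g t = 0) →
      f (2 ^ k * y.1 - c.1) * g (2 ^ k * y.2 - c.2) = 0 := by
    intro f g hf hg
    by_contra hne
    have h1 := left_ne_zero_of_mul hne
    have h2 := right_ne_zero_of_mul hne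
    have a1 : ¬ (2 ^ k * y.1 - (c.1 : ℝ) < 0 ∨ 1 ≤ 2 ^ k * y.1 - (c.1 : ℝ)) := fun h => h1 (hf _ h)
    have a2 : ¬ (2 ^ k * y.2 - (c.2 : ℝ) < 0 ∨ 1 ≤ 2 ^ k * y.2 - (c.2 : ℝ)) := fun h => h2 (hg _ h)
    push Not at a1 a2
    exact hy ⟨t4_cell hc.1 a1.1 a1.2, t4_cell hc.2 a2.1 a2.2⟩
  have hh : ∀ t, t < 0 ∨ 1 ≤ t → haar t = 0 := fun t h => t4_haar_zero h
  have ht : ∀ t, t < 0 ∨ 1 ≤ t → tent t = 0 := fun t h =>
    t4_tent_zero (h.imp le_of_lt id)
  unfold dpsi
  split_ifs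
  · rw [key haar tent hh ht, mul_zero]
  · rw [key tent haar ht hh, mul_zero]

theorem t4_prod (f g : ℝ → ℝ) (a : ℝ) :
    ∫ y : ℝ × ℝ, a * (f y.1 * g y.2) = a * ((∫ t, f t) * ∫ t, g t) := by
  rw [integral_const_mul]
  congr 1
  rw [Measure.volume_eq_prod]
  exact integral_prod_mul f g

theorem t4_tent_disj (k : ℕ) {c c' : ℕ} (h : c ≠ c') (t : ℝ) :
    tent (2 ^ k * t - c) * tent (2 ^ k * t - c') = 0 := by
  rcases lt_or_gt_of_ne h with h | h
  · have h1 : (c : ℝ) + 1 ≤ c' := by exact_mod_cast h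
    rcases le_or_gt (2 ^ k * t - (c' : ℝ)) 0 with h2 | h2
    · rw [t4_tent_zero (Or.inl h2), mul_zero]
    · rw [t4_tent_zero (t := 2 ^ k * t - c) (Or.inr (by linarith)), zero_mul]
  · have h1 : (c' : ℝ) + 1 ≤ c := by exact_mod_cast h
    rcases le_or_gt (2 ^ k * t - (c : ℝ)) 0 with h2 | h2
    · rw [t4_tent_zero (Or.inl h2), zero_mul]
    · rw [t4_tent_zero (t := 2 ^ k * t - c') (Or.inr (by linarith)), mul_zero]

theorem t4_orth
    (haar_orth : ∀ {k k' c c' : ℕ}, (k, c) ≠ (k', c') →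
      ∫ t, haar (2 ^ k * t - c) * haar (2 ^ k' * t - c') = 0)
    (i : Fin 2) {k k' : ℕ} {c c' : ℕ × ℕ} (h : (k, c) ≠ (k', c')) :
    ∫ y, dpsi i k c y * dpsi i k' c' y = 0 := by
  unfold dpsi
  by_cases hi : i = 0
  · simp only [hi, if_true]
    have e1 : (fun y : ℝ × ℝ => 2 ^ (k + 1) * (haar (2 ^ k * y.1 - c.1) * tent (2 ^ k * y.2 - c.2)) *
        (2 ^ (k' + 1) * (haar (2 ^ k' * y.1 - c'.1) * tent (2 ^ k' * y.2 - c'.2)))) =
        fun y : ℝ × ℝ => (2 ^ (k + 1) * 2 ^ (k' + 1)) *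
          ((fun t => haar (2 ^ k * t - c.1) * haar (2 ^ k' * t - c'.1)) y.1 *
           (fun t => tent (2 ^ k * t - c.2) * tent (2 ^ k' * t - c'.2)) y.2) := by
      funext y; ring
    rw [e1]
    refine (t4_prod (fun t => haar (2 ^ k * t - c.1) * haar (2 ^ k' * t - c'.1))
      (fun t => tent (2 ^ k * t - c.2) * tent (2 ^ k' * t - c'.2)) _).trans ?_
    by_cases h1 : (k, c.1) ≠ (k', c'.1)
    · rw [haar_orth h1, zero_mul, mul_zero]
    · push Not at h1
      obtain ⟨rfl, h3⟩ := Prod.mk.inj h1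
      have h2 : c.2 ≠ c'.2 := by
        intro h2
        exact h (by rw [Prod.ext h3 h2])
      have e2 : (fun t : ℝ => tent (2 ^ k * t - c.2) * tent (2 ^ k * t - c'.2)) = fun _ => 0 := by
        funext t
        exact t4_tent_disj k h2 t
      rw [e2, integral_zero, mul_zero, mul_zero]
  · simp only [hi, if_false]
    have e1 : (fun y : ℝ × ℝ => 2 ^ (k + 1) * (tent (2 ^ k * y.1 - c.1) * haar (2 ^ k * y.2 - c.2)) *
        (2 ^ (k' + 1) * (tent (2 ^ k' * y.1 - c'.1) * haar (2 ^ k' * y.2 - c'.2)))) =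
        fun y : ℝ × ℝ => (2 ^ (k + 1) * 2 ^ (k' + 1)) *
          ((fun t => tent (2 ^ k * t - c.1) * tent (2 ^ k' * t - c'.1)) y.1 *
           (fun t => haar (2 ^ k * t - c.2) * haar (2 ^ k' * t - c'.2)) y.2) := by
      funext y; ring
    rw [e1]
    refine (t4_prod (fun t => tent (2 ^ k * t - c.1) * tent (2 ^ k' * t - c'.1))
      (fun t => haar (2 ^ k * t - c.2) * haar (2 ^ k' * t - c'.2)) _).trans ?_
    by_cases h1 : (k, c.2) ≠ (k', c'.2)
    · rw [haar_orth h1, mul_zero, mul_zero]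
    · push Not at h1
      obtain ⟨rfl, h3⟩ := Prod.mk.inj h1
      have h2 : c.1 ≠ c'.1 := by
        intro h2
        exact h (by rw [Prod.ext h2 h3])
      have e2 : (fun t : ℝ => tent (2 ^ k * t - c.1) * tent (2 ^ k * t - c'.1)) = fun _ => 0 := by
        funext t
        exact t4_tent_disj k h2 t
      rw [e2, integral_zero, zero_mul, mul_zero]

theorem t4_norm
    (tent_sq_int : ∀ {N : ℝ}, 0 < N → ∀ c : ℝ, ∫ t, tent (N * t - c) ^ 2 = 1 / (3 * N))
    (haar_sq_int : ∀ {N : ℝ}, 0 < N → ∀ c : ℝ, ∫ t, haar (N * t - c) ^ 2 = 1 / N)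
    (i : Fin 2) (k : ℕ) (c : ℕ × ℕ) : ∫ y, dpsi i k c y * dpsi i k c y = 4 / 3 := by
  have h2 : (0 : ℝ) < 2 ^ k := by positivity
  unfold dpsi
  by_cases hi : i = 0
  · simp only [hi, if_true]
    have e1 : (fun y : ℝ × ℝ => 2 ^ (k + 1) * (haar (2 ^ k * y.1 - c.1) * tent (2 ^ k * y.2 - c.2)) *
        (2 ^ (k + 1) * (haar (2 ^ k * y.1 - c.1) * tent (2 ^ k * y.2 - c.2)))) =
        fun y : ℝ × ℝ => (2 ^ (k + 1) * 2 ^ (k + 1)) *
          ((fun t => haar (2 ^ k * t - c.1) ^ 2) y.1 *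
           (fun t => tent (2 ^ k * t - c.2) ^ 2) y.2) := by
      funext y; ring
    rw [e1]
    refine (t4_prod (fun t => haar (2 ^ k * t - c.1) ^ 2)
      (fun t => tent (2 ^ k * t - c.2) ^ 2) _).trans ?_
    rw [haar_sq_int h2 c.1, tent_sq_int h2 c.2, pow_succ]
    field_simp
    ring
  · simp only [hi, if_false]
    have e1 : (fun y : ℝ × ℝ => 2 ^ (k + 1) * (tent (2 ^ k * y.1 - c.1) * haar (2 ^ k * y.2 - c.2)) *
        (2 ^ (k + 1) * (tent (2 ^ k * y.1 - c.1) * haar (2 ^ k * y.2 - c.2)))) =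
        fun y : ℝ × ℝ => (2 ^ (k + 1) * 2 ^ (k + 1)) *
          ((fun t => tent (2 ^ k * t - c.1) ^ 2) y.1 *
           (fun t => haar (2 ^ k * t - c.2) ^ 2) y.2) := by
      funext y; ring
    rw [e1]
    refine (t4_prod (fun t => tent (2 ^ k * t - c.1) ^ 2)
      (fun t => haar (2 ^ k * t - c.2) ^ 2) _).trans ?_
    rw [haar_sq_int h2 c.2, tent_sq_int h2 c.1, pow_succ]
    field_simp
    ring

theorem bessel_of
    (tent_sq_int : ∀ {N : ℝ}, 0 < N → ∀ c : ℝ, ∫ t, tent (N * t - c) ^ 2 = 1 / (3 * N))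
    (haar_sq_int : ∀ {N : ℝ}, 0 < N → ∀ c : ℝ, ∫ t, haar (N * t - c) ^ 2 = 1 / N)
    (haar_orth : ∀ {k k' c c' : ℕ}, (k, c) ≠ (k', c') →
      ∫ t, haar (2 ^ k * t - c) * haar (2 ^ k' * t - c') = 0)
    (i : Fin 2) (K n : ℕ) {F : ℝ × ℝ → ℝ} (hF : Measurable F) {M : ℝ} (hM : ∀ y, |F y| ≤ M) :
    ∑ k ∈ Finset.Ico K (K + n), ∑ c ∈ cells k, (∫ y, dpsi i k c y * F y) ^ 2
      ≤ 4 / 3 * ∫ y in BB, F y ^ 2 := by
  have hfin : IsFiniteMeasure ((volume : Measure (ℝ × ℝ)).restrict BB) := by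
    constructor
    rw [Measure.restrict_apply MeasurableSet.univ, univ_inter]
    unfold BB
    rw [Measure.volume_eq_prod, Measure.prod_prod, Real.volume_Ico]
    simp
  let I : Finset (Σ _ : ℕ, ℕ × ℕ) := (Finset.Ico K (K + n)).sigma cells
  have hI : ∀ p ∈ I, p.2 ∈ cells p.1 := fun p hp => (Finset.mem_sigma.mp hp).2
  have hset : ∀ (p : Σ _ : ℕ, ℕ × ℕ), p ∈ I → ∀ G : ℝ × ℝ → ℝ,
      ∫ y in BB, dpsi i p.1 p.2 y * G y = ∫ y, dpsi i p.1 p.2 y * G y := by
    intro p hp G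
    apply setIntegral_eq_integral_of_forall_compl_eq_zero
    intro y hy
    rw [t4_dpsi_off i (hI p hp) hy, zero_mul]
  have h := t4_abs ((volume : Measure (ℝ × ℝ)).restrict BB) I
    (fun p => dpsi i p.1 p.2) F (fun p => t4_dpsi_measurable i p.1 p.2)
    (fun p => 2 ^ (p.1 + 1)) (fun p y => t4_dpsi_abs i p.1 p.2 y) hF hM
    (by
      intro p hp q hq hpq
      rw [hset p hp]
      apply t4_orth haar_orth
      intro h
      apply hpq
      obtain ⟨h1, h2⟩ := Prod.mk.inj h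
      exact Sigma.ext h1 (heq_of_eq h2))
    (by
      intro p hp
      rw [hset p hp]
      exact t4_norm tent_sq_int haar_sq_int i p.1 p.2)
  refine le_trans (le_of_eq ?_) h
  rw [Finset.sum_sigma]
  refine Finset.sum_congr rfl fun k hk => Finset.sum_congr rfl fun c hc => ?_
  rw [hset ⟨k, c⟩ (Finset.mem_sigma.mpr ⟨hk, hc⟩)]

theorem bessel (i : Fin 2) (K n : ℕ) {F : ℝ × ℝ → ℝ} (hF : Measurable F) {M : ℝ} (hM : ∀ y, |F y| ≤ M) :
    ∑ k ∈ Finset.Ico K (K + n), ∑ c ∈ cells k, (∫ y, dpsi i k c y * F y) ^ 2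
      ≤ 4 / 3 * ∫ y in BB, F y ^ 2 :=
  bessel_of (fun hN c => tent_sq_int hN c) (fun hN c => haar_sq_int hN c)
    (fun h => haar_orth h) i K n hF hM

end Pool.Agent.Helper37.RT
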