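import Pool.Agent.Helper76.RT.T4

/-! Row T6, second part: the size of the coefficients. -/

namespace Pool.Agent.Helper37.RT

open MeasureTheory Set Filter Topology
open scoped ENNReal

theorem t6b_haar (t : ℝ) : |haar t| = haar t ^ 2 := by
  unfold haar
  split_ifs <;> norm_num

theorem t6b_haar_integrable {N : ℝ} (hN : 0 < N) (c : ℝ) :
    Integrable fun t => haar (N * t - c) ^ 2 := by
  by_contra h
  have h1 := haar_sq_int hN c
  rw [integral_undef h] at h1
  have : (0 : ℝ) < 1 / N := by positivity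
  linarith

theorem t6b_tent_integrable {N : ℝ} (hN : 0 < N) (c : ℝ) :
    Integrable fun t => tent (N * t - c) := by
  by_contra h
  have h1 := tent_int hN c
  rw [integral_undef h] at h1
  have : (0 : ℝ) < 1 / (2 * N) := by positivity
  linarith

theorem t6b_dpsi (i : Fin 2) (k : ℕ) (c : ℕ × ℕ) :
    (Integrable fun y => |dpsi i k c y|) ∧ ∫ y, |dpsi i k c y| = (1 / 2) ^ k := by
  have h2 : (0 : ℝ) < 2 ^ k := by positivity
  have hi1 := t6b_haar_integrable h2
  have hi2 := t6b_tent_integrable h2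
  by_cases hi : i = 0
  · have e : (fun y : ℝ × ℝ => |dpsi i k c y|) = fun y : ℝ × ℝ => (2 : ℝ) ^ (k + 1) *
        ((fun t => haar (2 ^ k * t - c.1) ^ 2) y.1 * (fun t => tent (2 ^ k * t - c.2)) y.2) := by
      funext y
      unfold dpsi
      rw [if_pos hi, abs_mul, abs_mul, t6b_haar, abs_of_nonneg (t4_tent_nonneg _),
        abs_of_nonneg (by positivity : (0 : ℝ) ≤ 2 ^ (k + 1))]
    rw [e]
    constructor
    · exact ((hi1 c.1).mul_prod (hi2 c.2)).const_mul _
    · refine (t4_prod (fun t => haar (2 ^ k * t - c.1) ^ 2)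
        (fun t => tent (2 ^ k * t - c.2)) _).trans ?_
      rw [haar_sq_int h2 c.1, tent_int h2 c.2, pow_succ, one_div_pow]
      field_simp
  · have e : (fun y : ℝ × ℝ => |dpsi i k c y|) = fun y : ℝ × ℝ => (2 : ℝ) ^ (k + 1) *
        ((fun t => tent (2 ^ k * t - c.1)) y.1 * (fun t => haar (2 ^ k * t - c.2) ^ 2) y.2) := by
      funext y
      unfold dpsi
      rw [if_neg hi, abs_mul, abs_mul, t6b_haar, abs_of_nonneg (t4_tent_nonneg _),
        abs_of_nonneg (by positivity : (0 : ℝ) ≤ 2 ^ (k + 1))]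
    rw [e]
    constructor
    · exact ((hi2 c.1).mul_prod (hi1 c.2)).const_mul _
    · refine (t4_prod (fun t => tent (2 ^ k * t - c.1))
        (fun t => haar (2 ^ k * t - c.2) ^ 2) _).trans ?_
      rw [haar_sq_int h2 c.2, tent_int h2 c.1, pow_succ, one_div_pow]
      field_simp

theorem bb_abs {E : Set (ℝ × ℝ)} (hE : MeasurableSet E) (i : Fin 2) (k : ℕ) (c : ℕ × ℕ) (r : ℝ)
    (x : ℝ × ℝ) : |bb E i k c r x| ≤ 1 := by
  have _ := hE
  obtain ⟨h1, h2⟩ := t6b_dpsi i k c
  have h3 : |bb E i k c r x| ≤ ∫ y, |dpsi i k c y| := by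
    unfold bb
    rw [← Real.norm_eq_abs]
    refine (norm_integral_le_integral_norm _).trans ?_
    refine integral_mono_of_nonneg (Eventually.of_forall fun y => norm_nonneg _) h1
      (Eventually.of_forall fun y => ?_)
    show ‖dpsi i k c y * ff E r x y‖ ≤ |dpsi i k c y|
    rw [Real.norm_eq_abs, abs_mul]
    apply mul_le_of_le_one_right (abs_nonneg _)
    unfold ff indicator
    split_ifs <;> simp
  rw [h2] at h3
  exact h3.trans (pow_le_one₀ (by norm_num) (by norm_num))

end Pool.Agent.Helper37.RT
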